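import Pool.Agent.H9.PW2

namespace Pool.Agent.Results.MP_261efc_co.P11
open MeasureTheory Pool.Agent.H9.PW

/-- No probability density makes the averaged mixing matrix of the path `P₁₁` have rank one. -/
theorem result (f : ℝ → ℝ) (_h0 : ∀ s, 0 ≤ f s) (hf : Integrable f) (h1 : ∫ s, f s = 1) :
    (avg 11 f).rank ≠ 1 :=
  main hf h1

end Pool.Agent.Results.MP_261efc_co.P11
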